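import Pool.Agent.Work.MP_858761_dm.B_KC
import Pool.Agent.Work.MP_858761_dm.B_K0
import Pool.Agent.Work.MP_858761_dm.B_K1
import Pool.Agent.Work.MP_858761_dm.B_K2
import Pool.Agent.Work.MP_858761_dm.B_K3
import Pool.Agent.Work.MP_858761_dm.B_K4
import Pool.Agent.Work.MP_858761_dm.B_K5
import Pool.Agent.Work.MP_858761_dm.B_K6
import Pool.Agent.Work.MP_858761_dm.B_K7
import Pool.Agent.Work.MP_858761_dm.B_K8
import Pool.Agent.Work.MP_858761_dm.B_K9
import Pool.Agent.Work.MP_858761_dm.B_K10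
import Pool.Agent.Work.MP_858761_dm.B_K11b
import Pool.Agent.Work.MP_858761_dm.B_K12
import Pool.Agent.Work.MP_858761_dm.B_K17

/-!
# MP_858761_lc: approximating diamonds and diamond at singular cardinals of uncountable cofinality

Let `θ` be an inaccessible cardinal and `λ = ⟨λ_i : i < θ⟩` a sequence of cardinals with
`0 < λ_i < θ` for all `i` and `λ_i = 2^|i|` for a closed unbounded set of `i < θ`; for example
`λ_i = 2^|i|` for all `i < θ`.

* (a) Let `S ⊆ θ` be such that every `γ ∈ S` is a singular strong limit cardinal of uncountable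
  cofinality with `2^|i| = |i|^+` for a closed unbounded set of `i < γ`. Then `♦_λ(S)` holds if and
  only if `♦(S)` holds.
* (b) If `2^κ = κ^+` for every singular strong limit cardinal `κ < θ`, this equivalence holds for
  every set `S` of singular strong limit cardinals of uncountable cofinality.
* (c) Under the same hypothesis below `θ`, `♦_λ(θ)` holds if and only if `♦(θ)` holds, or
  `♦_λ({γ < θ : cf γ = ω})` holds, or `♦_λ({γ < θ : γ is a regular cardinal})` holds.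
* (d) If moreover `θ` is not Mahlo, `♦_λ(θ)` holds if and only if `♦(θ)` or
  `♦_λ({γ < θ : cf γ = ω})` holds.

The definitions are in `Pool/Agent/Work/MP_858761_dm/Defs.lean`: `ClubIn δ C` (`C` is closed and
unbounded in `δ`), `StatIn δ T` (`T` meets every closed unbounded subset of `δ`), `LtStar γ g f`
(`g <* f` on `γ`), `DiamondL θ lam S` (`♦_lam(S)`), `Diamond θ S` (`♦(S)`), `Nice γ` (the condition
on `γ` in (a)), `SingStrong γ` (`γ` is a singular strong limit cardinal), `SCHBelow θ` (the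
hypothesis of (b)), `RegStat θ` (the regular cardinals below `θ` are stationary in `θ`; an
inaccessible `θ` is Mahlo if and only if this holds). `BethOnClub θ lam` (the condition on `λ`) is in
`Pool/Agent/Work/MP_858761_dm/B_K17.lean`.
-/

set_option autoImplicit false

namespace Pool.Agent.Results.MP_858761_lc.SingularDiamond

open Set Cardinal Pool.Agent.Work.MP_858761_dm

theorem result :
    (∀ θ : Cardinal.{0}, ℵ₀ < θ → θ.IsRegular → θ.IsStrongLimit →
      BethOnClub θ (fun i => 2 ^ i.card)) ∧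
    (∀ θ : Cardinal.{0}, ℵ₀ < θ → θ.IsRegular → θ.IsStrongLimit →
      ∀ lam : Ordinal.{0} → Cardinal.{0}, BethOnClub θ lam →
      ∀ S : Set Ordinal.{0}, S ⊆ Iio θ.ord → (∀ γ ∈ S, Nice γ) →
        (DiamondL θ lam S ↔ Diamond θ S)) ∧
    (∀ θ : Cardinal.{0}, ℵ₀ < θ → θ.IsRegular → θ.IsStrongLimit → SCHBelow θ →
      ∀ lam : Ordinal.{0} → Cardinal.{0}, BethOnClub θ lam →
      ∀ S : Set Ordinal.{0}, S ⊆ Iio θ.ord → (∀ γ ∈ S, SingStrong γ ∧ ℵ₀ < γ.cof) →
        (DiamondL θ lam S ↔ Diamond θ S)) ∧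
    (∀ θ : Cardinal.{0}, ℵ₀ < θ → θ.IsRegular → θ.IsStrongLimit → SCHBelow θ →
      ∀ lam : Ordinal.{0} → Cardinal.{0}, BethOnClub θ lam →
      (DiamondL θ lam (Iio θ.ord) ↔
        Diamond θ (Iio θ.ord) ∨
        DiamondL θ lam {γ | γ < θ.ord ∧ γ.cof = ℵ₀} ∨
        DiamondL θ lam {γ | γ < θ.ord ∧ ∃ κ : Cardinal.{0}, γ = κ.ord ∧ κ.IsRegular})) ∧
    (∀ θ : Cardinal.{0}, ℵ₀ < θ → θ.IsRegular → θ.IsStrongLimit → ¬ RegStat θ → SCHBelow θ →
      ∀ lam : Ordinal.{0} → Cardinal.{0}, BethOnClub θ lam →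
      (DiamondL θ lam (Iio θ.ord) ↔
        Diamond θ (Iio θ.ord) ∨ DiamondL θ lam {γ | γ < θ.ord ∧ γ.cof = ℵ₀})) := by
  have hC := p_KC
  have h0 := p_K0
  have h1 : S_K1 := p_K1 hC
  have h2 := p_K2
  have h3 := p_K3
  have h4 := p_K4
  have h5 := p_K5
  have h6 : S_K6 := p_K6 h0 h1 h2 h3 h5
  have h7 := p_K7
  have h8 : S_K8 := p_K8 h7
  have h9 : S_K9 := p_K9 h4 h6 h8
  have h10 : S_K10 := p_K10 h7
  have h11 : S_K11 := p_K11b hC h2
  have h12 : S_K12 := p_K12 h0
  have h16 : S_K16 := p_K16 h7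
  have h17 : S_K17 := p_K17 h0 h7 h9 h10
  have h18 : S_K18 := p_K18 h10 h11 h12 h16 h17
  have h19 : S_K19 := p_K19 h18
  refine ⟨?_, h17, ?_, h18, h19⟩
  · intro θ hθ hr hs
    refine ⟨fun i hi => ⟨?_, hs.isStrongPrelimit (Cardinal.lt_ord.1 hi)⟩, Iio θ.ord,
      ⟨subset_rfl, ?_, fun β hβ _ _ => hβ⟩, fun i _ => rfl⟩
    · have h := XK14.pos i
      rw [Cardinal.lt_ord] at h
      simpa using h
    · intro β hβ
      exact ⟨Order.succ β, (Cardinal.isSuccLimit_ord hθ.le).succ_lt hβ, Order.lt_succ β⟩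
  · intro θ hθ hr hs hsch lam hlam S hS hn
    exact h17 θ hθ hr hs lam hlam S hS
      (fun γ hγ => h11 θ hsch γ (hS hγ) (hn γ hγ).1 (hn γ hγ).2)

end Pool.Agent.Results.MP_858761_lc.SingularDiamond
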